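import Pool.Agent.ASE.Stmts3

/-!
# Squad ASE, row PRB: the projections `pr`
-/

open scoped BigOperators

noncomputable section

namespace Pool.Agent.PP.SE.H85

open Pool.Agent.PP Pool.Agent.PP.SE Pool.Agent.PP.SD

section basic

variable {ℓ : ℕ} [hℓ : Fact ℓ.Prime] {V₀ : Type} [CommGroup V₀] [Finite V₀]
  {E₀ : Subgroup (MulAut V₀)}

instance finAut : Finite (MulAut V₀) := by
  refine Finite.of_injective (fun σ : MulAut V₀ => (σ : V₀ → V₀)) ?_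
  intro σ τ h
  exact MulEquiv.ext fun x => congrFun h x

/-- the product over the stabiliser -/
def Ps (E₀ : Subgroup (MulAut V₀)) (W : Subgroup V₀) (c : V₀) : V₀ :=
  ∏ᶠ τ : St E₀ W, (τ : MulAut V₀) c

theorem nS_pos (W : Subgroup V₀) : 0 < nS E₀ W := Nat.card_pos

theorem St_le (W : Subgroup V₀) : St E₀ W ≤ E₀ := fun _ h => h.1

theorem nS_cop (hF : Fq ℓ V₀ E₀) (W : Subgroup V₀) : ¬ ℓ ∣ nS E₀ W := fun h =>
  hF.cp (h.trans (Subgroup.card_dvd_of_le (St_le W)))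

theorem pow_inv (hF : Fq ℓ V₀ E₀) (W : Subgroup V₀) (v : V₀) :
    v ^ (nS E₀ W * ((nS E₀ W : ZMod ℓ)⁻¹).val) = v := by
  have h0 : (nS E₀ W : ZMod ℓ) ≠ 0 := fun h =>
    nS_cop hF W ((ZMod.natCast_eq_zero_iff _ _).1 h)
  have h1 : ((nS E₀ W * ((nS E₀ W : ZMod ℓ)⁻¹).val : ℕ) : ZMod ℓ) = ((1 : ℕ) : ZMod ℓ) := by
    rw [Nat.cast_mul, ZMod.natCast_zmod_val, mul_inv_cancel₀ h0, Nat.cast_one]
  have h2 := (ZMod.natCast_eq_natCast_iff _ _ _).1 h1
  have h3 : orderOf v ∣ ℓ := orderOf_dvd_of_pow_eq_one (hF.ex v)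
  have h4 := (pow_eq_pow_iff_modEq (x := v)).2 (h2.of_dvd h3)
  rw [h4, pow_one]

theorem pr_eq (ℓ : ℕ) (W : Subgroup V₀) (c : V₀) :
    pr ℓ E₀ W c = Ps E₀ W c ^ ((nS E₀ W : ZMod ℓ)⁻¹).val := rfl

theorem Ps_mul (W : Subgroup V₀) (c d : V₀) : Ps E₀ W (c * d) = Ps E₀ W c * Ps E₀ W d := by
  unfold Ps
  rw [← finprod_mul_distrib (Set.toFinite _) (Set.toFinite _)]
  exact finprod_congr fun τ => map_mul _ _ _

theorem Ps_one (W : Subgroup V₀) : Ps E₀ W 1 = 1 := by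
  unfold Ps
  have h : (fun τ : St E₀ W => (τ : MulAut V₀) (1 : V₀)) = fun _ => 1 :=
    funext fun τ => map_one _
  rw [h, finprod_one]

/-- the projection as a homomorphism -/
def prH (ℓ : ℕ) (E₀ : Subgroup (MulAut V₀)) (W : Subgroup V₀) : V₀ →* V₀ where
  toFun := pr ℓ E₀ W
  map_one' := by rw [pr_eq, Ps_one, one_pow]
  map_mul' c d := by rw [pr_eq, pr_eq, pr_eq, Ps_mul, mul_pow]

theorem Ps_fix (W : Subgroup V₀) {c : V₀} (h : ∀ τ ∈ St E₀ W, τ c = c) :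
    Ps E₀ W c = c ^ nS E₀ W := by
  unfold Ps nS
  have : Fintype (St E₀ W) := Fintype.ofFinite _
  rw [finprod_eq_prod_of_fintype, Nat.card_eq_fintype_card, ← Finset.card_univ,
    ← Finset.prod_const]
  exact Finset.prod_congr rfl fun τ _ => h τ τ.2

theorem Ps_inv (W : Subgroup V₀) {τ : MulAut V₀} (hτ : τ ∈ St E₀ W) (c : V₀) :
    Ps E₀ W (τ c) = Ps E₀ W c ∧ τ (Ps E₀ W c) = Ps E₀ W c := by
  constructor
  · unfold Ps
    exact finprod_eq_of_bijective (fun σ : St E₀ W => σ * ⟨τ, hτ⟩)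
      (Group.mulRight_bijective (⟨τ, hτ⟩ : St E₀ W)) fun σ => rfl
  · unfold Ps
    have h1 : τ (∏ᶠ σ : St E₀ W, (σ : MulAut V₀) c) = ∏ᶠ σ : St E₀ W, τ ((σ : MulAut V₀) c) :=
      (τ : V₀ ≃* V₀).toMonoidHom.map_finprod_of_preimage_one (fun x hx => by
        have : τ x = 1 := hx
        exact (MulEquiv.map_eq_one_iff τ).1 this) _
    rw [h1]
    exact finprod_eq_of_bijective (fun σ : St E₀ W => ⟨τ, hτ⟩ * σ)
      (Group.mulLeft_bijective (⟨τ, hτ⟩ : St E₀ W)) fun σ => rfl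

theorem pr_inv (W : Subgroup V₀) {τ : MulAut V₀} (hτ : τ ∈ St E₀ W) (c : V₀) :
    pr ℓ E₀ W (τ c) = pr ℓ E₀ W c ∧ τ (pr ℓ E₀ W c) = pr ℓ E₀ W c := by
  rw [pr_eq, pr_eq, (Ps_inv W hτ c).1, map_pow, (Ps_inv W hτ c).2]
  exact ⟨rfl, rfl⟩

theorem mem_mp {σ : MulAut V₀} {W : Subgroup V₀} {v : V₀} : σ v ∈ mp σ W ↔ v ∈ W := by
  constructor
  · rintro ⟨w, hw, h⟩
    have : w = v := σ.injective h
    rw [← this]
    exact hw
  · intro h
    exact ⟨v, h, rfl⟩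

theorem conj_mem {σ : MulAut V₀} (hσ : σ ∈ E₀) (W : Subgroup V₀) (τ : MulAut V₀) :
    σ * τ * σ⁻¹ ∈ St E₀ (mp σ W) ↔ τ ∈ St E₀ W := by
  constructor
  · rintro ⟨h1, h2⟩
    refine ⟨?_, fun w hw => ?_⟩
    · have h3 := E₀.mul_mem (E₀.mul_mem (E₀.inv_mem hσ) h1) hσ
      have e : σ⁻¹ * (σ * τ * σ⁻¹) * σ = τ := by group
      rwa [e] at h3
    · have h3 := h2 (σ w) (mem_mp.2 hw)
      rw [MulAut.mul_apply, MulAut.mul_apply, MulAut.inv_apply_self] at h3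
      exact σ.injective h3
  · rintro ⟨h1, h2⟩
    refine ⟨E₀.mul_mem (E₀.mul_mem hσ h1) (E₀.inv_mem hσ), ?_⟩
    rintro w ⟨v, hv, rfl⟩
    show (σ * τ * σ⁻¹) (σ v) = σ v
    rw [MulAut.mul_apply, MulAut.mul_apply, MulAut.inv_apply_self, h2 v hv]

/-- the stabilisers of `W` and of its image -/
def stEq {σ : MulAut V₀} (hσ : σ ∈ E₀) (W : Subgroup V₀) : St E₀ W ≃ St E₀ (mp σ W) where
  toFun τ := ⟨σ * τ * σ⁻¹, (conj_mem hσ W τ).2 τ.2⟩
  invFun τ := ⟨σ⁻¹ * τ * σ, (conj_mem hσ W _).1 (by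
    have e : σ * (σ⁻¹ * (τ : MulAut V₀) * σ) * σ⁻¹ = τ := by group
    rw [e]
    exact τ.2)⟩
  left_inv τ := by
    apply Subtype.ext
    show σ⁻¹ * (σ * (τ : MulAut V₀) * σ⁻¹) * σ = τ
    group
  right_inv τ := by
    apply Subtype.ext
    show σ * (σ⁻¹ * (τ : MulAut V₀) * σ) * σ⁻¹ = τ
    group

theorem nS_mp {σ : MulAut V₀} (hσ : σ ∈ E₀) (W : Subgroup V₀) : nS E₀ (mp σ W) = nS E₀ W :=
  (Nat.card_congr (stEq hσ W)).symm

theorem pr_mp {σ : MulAut V₀} (hσ : σ ∈ E₀) (W : Subgroup V₀) (c : V₀) :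
    pr ℓ E₀ (mp σ W) (σ c) = σ (pr ℓ E₀ W c) := by
  rw [pr_eq, pr_eq, map_pow, nS_mp hσ]
  congr 1
  unfold Ps
  have h1 : σ (∏ᶠ τ : St E₀ W, (τ : MulAut V₀) c) = ∏ᶠ τ : St E₀ W, σ ((τ : MulAut V₀) c) :=
    (σ : V₀ ≃* V₀).toMonoidHom.map_finprod_of_preimage_one (fun x hx => by
      have : σ x = 1 := hx
      exact (MulEquiv.map_eq_one_iff σ).1 this) _
  rw [h1]
  refine (finprod_eq_of_bijective (stEq hσ W) (stEq hσ W).bijective fun τ => ?_).symm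
  show σ ((τ : MulAut V₀) c) = (σ * (τ : MulAut V₀) * σ⁻¹) (σ c)
  rw [MulAut.mul_apply, MulAut.mul_apply, MulAut.inv_apply_self]

/-- the fixed points of a set of automorphisms -/
def Fx (S : Subgroup (MulAut V₀)) : Subgroup V₀ where
  carrier := {v | ∀ τ ∈ S, τ v = v}
  one_mem' := fun _ _ => map_one _
  mul_mem' := fun {a b} ha hb τ hτ => by rw [map_mul, ha τ hτ, hb τ hτ]
  inv_mem' := fun {a} ha τ hτ => by rw [map_inv, ha τ hτ]

theorem card_cases (hF : Fq ℓ V₀ E₀) (W : Subgroup V₀) (h : W ≠ ⊥) :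
    W = ⊤ ∨ Nat.card W = ℓ := by
  have h1 : Nat.card W ∣ ℓ ^ 2 := by
    rw [← hF.cd]
    exact Subgroup.card_subgroup_dvd_card W
  obtain ⟨k, hk, hk2⟩ := (Nat.dvd_prime_pow hℓ.out).1 h1
  interval_cases k
  · rw [pow_zero] at hk2
    exact absurd (Subgroup.card_eq_one.1 hk2) h
  · right
    rw [hk2, pow_one]
  · left
    apply Subgroup.eq_top_of_card_eq
    rw [hk2, hF.cd]

theorem eq_of_card (hF : Fq ℓ V₀ E₀) {W F : Subgroup V₀} (hW : Nat.card W = ℓ) (hle : W ≤ F)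
    (hne : F ≠ ⊤) : F = W := by
  have hb : F ≠ ⊥ := by
    rintro rfl
    have : W = ⊥ := le_bot_iff.1 hle
    rw [this, Subgroup.card_bot] at hW
    exact hℓ.out.one_lt.ne hW
  rcases card_cases hF F hb with h | h
  · exact absurd h hne
  · exact (Subgroup.eq_of_le_of_card_ge hle (by rw [h, hW])).symm

theorem sup_top (hF : Fq ℓ V₀ E₀) {W F : Subgroup V₀} (hW : W ≠ ⊥) (hle : W ≤ F) {x : V₀}
    (hx : x ∉ W) (hxF : x ∈ F) : F = ⊤ := by
  by_contra hne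
  rcases card_cases hF W hW with h | h
  · rw [h] at hx
    exact hx (Subgroup.mem_top x)
  · have := eq_of_card hF h hle hne
    rw [this] at hxF
    exact hx hxF

theorem nS_top : nS E₀ (⊤ : Subgroup V₀) = 1 := by
  unfold nS
  rw [Subgroup.card_eq_one, Subgroup.eq_bot_iff_forall]
  intro τ hτ
  exact MulEquiv.ext fun x => hτ.2 x (Subgroup.mem_top x)

theorem nS_one {W : Subgroup V₀} (h : nS E₀ W = 1) (c : V₀) : Ps E₀ W c = c := by
  have h1 : St E₀ W = ⊥ := Subgroup.card_eq_one.1 h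
  have h2 := Ps_fix (E₀ := E₀) W (c := c) (fun τ hτ => by
    rw [h1, Subgroup.mem_bot] at hτ
    rw [hτ]
    rfl)
  rw [h2, h, pow_one]

end basic

theorem prb : PrbStmt := by
  intro ℓ hℓ V₀ _ _ E₀ hF W
  refine ⟨?_, ⟨?_, ?_, ?_⟩, ?_, ?_, ?_, ?_, ?_, ?_, ?_, ?_⟩
  · intro c hc
    rw [pr_eq, Ps_fix W (fun τ hτ => hτ.2 c hc), ← pow_mul, pow_inv hF]
  · exact map_one (prH ℓ E₀ W)
  · exact map_mul (prH ℓ E₀ W)
  · exact fun c k => map_zpow (prH ℓ E₀ W) c k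
  · exact fun τ hτ c => pr_inv W hτ c
  · exact fun σ hσ => ⟨nS_mp hσ W, pr_mp hσ W⟩
  · rintro ⟨h1, h2⟩ c
    have h3 : Fx (St E₀ W) = W := by
      refine eq_of_card hF h1 (fun w hw τ hτ => hτ.2 w hw) ?_
      intro htop
      have h4 : St E₀ W = ⊥ := by
        rw [Subgroup.eq_bot_iff_forall]
        intro τ hτ
        refine MulEquiv.ext fun x => ?_
        have hx : x ∈ Fx (St E₀ W) := by rw [htop]; exact Subgroup.mem_top x
        exact hx τ hτ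
      unfold nS at h2
      rw [h4, Subgroup.card_bot] at h2
      exact lt_irrefl _ h2
    have h4 : pr ℓ E₀ W c ∈ Fx (St E₀ W) := fun τ hτ => (pr_inv W hτ c).2
    rw [h3] at h4
    exact h4
  · intro h c
    have : Fact (1 < ℓ) := ⟨hℓ.out.one_lt⟩
    rw [pr_eq, nS_one h, h, Nat.cast_one, inv_one, ZMod.val_one, pow_one]
  · intro h
    have h1 := card_cases hF W h
    refine ⟨?_, h1⟩
    rcases h1 with h1 | h1
    · left
      rw [h1]
      exact nS_top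
    · rcases Nat.lt_or_ge 1 (nS E₀ W) with h2 | h2
      · exact Or.inr ⟨h1, h2⟩
      · left
        have := nS_pos (E₀ := E₀) W
        omega
  · exact ⟨nS_top, nS_pos W, nS_cop hF W⟩
  · intro hW x hx
    refine ⟨sup_top hF hW le_sup_left hx (le_sup_right (a := W) (Subgroup.mem_zpowers x)), ?_⟩
    intro τ hτ hτx
    have h1 : Fx (Subgroup.zpowers τ) = ⊤ := by
      refine sup_top hF hW ?_ hx ?_
      · intro w hw σ hσ
        have : σ ∈ St E₀ W := (Subgroup.zpowers_le.2 hτ) hσ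
        exact this.2 w hw
      · intro σ hσ
        have hle : Subgroup.zpowers τ ≤ St (⊤ : Subgroup (MulAut V₀)) (Subgroup.zpowers x) := by
          rw [Subgroup.zpowers_le]
          refine ⟨Subgroup.mem_top _, ?_⟩
          rintro w ⟨k, rfl⟩
          show τ (x ^ k) = x ^ k
          rw [map_zpow, hτx]
        exact (hle hσ).2 x (Subgroup.mem_zpowers x)
    refine MulEquiv.ext fun v => ?_
    have hv : v ∈ Fx (Subgroup.zpowers τ) := by rw [h1]; exact Subgroup.mem_top v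
    exact hv τ (Subgroup.mem_zpowers τ)
  · intro v
    show Ps E₀ W v = _
    rw [pr_eq, ← pow_mul, mul_comm, pow_inv hF]

end Pool.Agent.PP.SE.H85
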